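import Pool.Agent.H27.QD

namespace Pool.Agent.Results.MP_4d1f21_nt.Guo
open Finset Polynomial Pool.Agent.H27.QC Pool.Agent.H27.QC.Loc Pool.Agent.H27.QD

/-- the shifted factorial `(a; b)_k` -/
def poch {K : Type*} [Field K] (a b : K) (k : ℕ) : K := ∏ i ∈ range k, (1 - a * b ^ i)

/-- the sum of the problem, with `m = d (d + 1) / 2` -/
def S {K : Type*} [Field K] (q : K) (d n : ℕ) : K := ∑ k ∈ range n,
  (∏ j ∈ Icc 1 d, poch (q ^ j) (q ^ (d * (d + 1) / 2)) k)
    / poch (q ^ (d * (d + 1) / 2)) (q ^ (d * (d + 1) / 2)) k ^ d * q ^ (d * (d + 1) / 2 * k)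

variable {K : Type*} [Field K]

def g (a p : K) (k : ℕ) : K := poch a p k / poch p p k

section
variable {p : K} (hp : p ≠ 0) (ne : ∀ j, 1 - p * p ^ j ≠ 0)
include ne

theorem pp_ne (k : ℕ) : poch p p k ≠ 0 := prod_ne_zero_iff.mpr fun i _ => ne i

theorem g_succ (a : K) (k : ℕ) : g a p (k + 1) = g (a * p) p (k + 1) - a * g (a * p) p k := by
  have h1 : poch a p (k + 1) = (1 - a) * poch (a * p) p k := by
    rw [poch, prod_range_succ', mul_comm, poch]
    congr 1
    · simp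
    · exact prod_congr rfl fun i _ => by ring
  have h2 := pp_ne ne k
  have h3 := ne k
  rw [g, g, g, h1, poch, poch, poch, prod_range_succ, prod_range_succ, ← poch, ← poch]
  field_simp
  ring

include hp

theorem g_top {N k : ℕ} (h : N < k) : g (p ^ N)⁻¹ p k = 0 := by
  rw [g, poch, prod_eq_zero (mem_range.mpr h) (by rw [inv_mul_cancel₀ (pow_ne_zero N hp), sub_self]),
    zero_div]

theorem qbin (N M : ℕ) (h : N < M) (z : K) :
    ∑ k ∈ range M, g (p ^ N)⁻¹ p k * z ^ k = ∏ i ∈ range N, (1 - z / p ^ (i + 1)) := by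
  induction N with
  | zero =>
    obtain ⟨M, rfl⟩ : ∃ M', M = M' + 1 := ⟨M - 1, by omega⟩
    rw [sum_range_succ', sum_eq_zero fun k _ => by rw [g_top hp ne (by omega), zero_mul]]
    simp [g, poch]
  | succ N ih =>
    obtain ⟨M, rfl⟩ : ∃ M', M = M' + 1 := ⟨M - 1, by omega⟩
    have e : (p ^ (N + 1))⁻¹ * p = (p ^ N)⁻¹ := by field_simp; ring
    have h1 := ih (by omega)
    have h2 := h1
    rw [sum_range_succ'] at h1
    rw [sum_range_succ, g_top hp ne (by omega : N < M)] at h2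
    rw [prod_range_succ, sum_range_succ']
    rw [sum_congr rfl fun k _ => by rw [g_succ ne, e, sub_mul], sum_sub_distrib]
    have h3 : ∑ k ∈ range M, (p ^ (N + 1))⁻¹ * g (p ^ N)⁻¹ p k * z ^ (k + 1)
        = z / p ^ (N + 1) * ∑ k ∈ range M, g (p ^ N)⁻¹ p k * z ^ k := by
      rw [mul_sum]; exact sum_congr rfl fun k _ => by ring
    have h4 : ∀ a : K, g a p 0 = 1 := fun a => by simp [g, poch]
    rw [h3, h4] at *
    linear_combination h1 - z / p ^ (N + 1) * h2

end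

def Z (p : K) (N M r : ℕ) (f : ℕ → K) : Prop :=
  ∀ s, s + r < N → ∑ k ∈ range M, g (p ^ N)⁻¹ p k * (p ^ (s + 1)) ^ k * f k = 0

theorem Z.lin {p : K} {N M r : ℕ} {f : ℕ → K} (h : Z p N M r f) (c c' : K) :
    Z p N M (r + 1) fun k => f k * ((1 - c * p ^ k) * c') := fun s hs => by
  have h1 := h s (by omega)
  have h2 := h (s + 1) (by omega)
  rw [← mul_eq_zero_of_right c' h1, ← sub_zero (c' * _), ← mul_eq_zero_of_right (c * c') h2,
    mul_sum, mul_sum, ← sum_sub_distrib]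
  exact sum_congr rfl fun k _ => by ring

theorem Z.g {p : K} (ne : ∀ j, 1 - p * p ^ j ≠ 0) {N M r : ℕ} {f : ℕ → K} (h : Z p N M r f)
    (a : ℕ) : Z p N M (r + a) fun k => f k * g (p ^ (a + 1)) p k := by
  induction a with
  | zero => simpa [Guo.g, pp_ne ne] using h
  | succ a ih =>
    have := ih.lin (p ^ (a + 1)) (1 - p ^ (a + 1))⁻¹
    refine fun s hs => (sum_congr rfl fun k _ => ?_).trans (this s hs)
    have h1 : (1 - p ^ (a + 1)) * poch (p ^ (a + 1 + 1)) p k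
        = poch (p ^ (a + 1)) p k * (1 - p ^ (a + 1) * p ^ k) := by
      rw [poch, poch, ← prod_range_succ, prod_range_succ', mul_comm]
      congr 1
      · exact prod_congr rfl fun i _ => by ring
      · simp
    have h2 : 1 - p ^ (a + 1) ≠ 0 := by rw [pow_succ']; exact ne a
    beta_reduce
    unfold Guo.g
    rw [(eq_inv_mul_iff_mul_eq₀ h2).mpr h1]
    ring

theorem Z.prod {p : K} (hp : p ≠ 0) (ne : ∀ j, 1 - p * p ^ j ≠ 0) {N M : ℕ} (h : N < M)
    (s : Finset ℕ) (a : ℕ → ℕ) :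
    Z p N M (∑ j ∈ s, a j) fun k => ∏ j ∈ s, Guo.g (p ^ (a j + 1)) p k := by
  induction s using Finset.induction_on with
  | empty =>
    intro s hs
    simp only [prod_empty, mul_one]
    rw [qbin hp ne N M h]
    exact prod_eq_zero (i := s) (mem_range.mpr (by simpa using hs))
      (by rw [div_self (pow_ne_zero _ hp), sub_self])
  | insert j s hj ih =>
    have := ih.g ne (a j)
    rw [sum_insert hj, add_comm (a j)]
    simpa only [prod_insert hj, mul_comm (Guo.g (p ^ (a j + 1)) p _)] using this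

variable [CharZero K] {L : Loc K}

theorem prod_first (s : Finset ℕ) (x u v : ℕ → K) (hu : ∀ j, u j ∈ L.O) (hv : ∀ j, v j ∈ L.O)
    (h : ∀ j ∈ s, L.E 2 (x j) (u j + L.e * v j)) : L.E 2 (∏ j ∈ s, x j)
      (∏ j ∈ s, u j + L.e * ∑ i ∈ s, v i * ∏ j ∈ s.erase i, u j) := by
  induction s using Finset.induction_on with
  | empty => exact E.of_eq (by simp)
  | insert j s hj ih =>
    have hA : ∑ i ∈ s, v i * ∏ j ∈ s.erase i, u j ∈ L.O :=
      sum_mem fun i _ => mul_mem (hv i) (prod_mem fun j _ => hu j)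
    have e : ∑ i ∈ s, v i * ∏ l ∈ (insert j s).erase i, u l
        = u j * ∑ i ∈ s, v i * ∏ l ∈ s.erase i, u l := by
      rw [mul_sum]
      refine sum_congr rfl fun i hi => ?_
      rw [erase_insert_of_ne (fun h : j = i => hj (h ▸ hi)), prod_insert fun h => hj (mem_of_mem_erase h)]
      ring
    rw [prod_insert hj, prod_insert hj, sum_insert hj, erase_insert hj, e]
    exact (((h j (by simp)).mul (ih fun i hi => h i (by simp [hi]))
      (add_mem (hu j) (mul_mem L.e_mem (hv j))) (add_mem (prod_mem fun j _ => hu j)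
        (mul_mem L.e_mem hA))).add (E.sq (mul_mem (hv j) hA))).of_sub (by ring)

theorem main {d m t : ℕ} (hd : 3 ≤ d) (hm : ∑ j ∈ Icc 1 d, j = m) (ht : L.n + 1 = m * t)
    (hn : 1 < L.n) : L.E 2 (∑ k ∈ range L.n, (∏ j ∈ Icc 1 d, g (L.q ^ j) (L.q ^ m) k)
      * L.q ^ (m * k)) 0 := by
  have hm0 : 0 < m := Nat.pos_of_mul_pos_right (ht ▸ Nat.succ_pos _ : 0 < m * t)
  have ht0 : 0 < t := Nat.pos_of_mul_pos_left (ht ▸ Nat.succ_pos _ : 0 < m * t)
  have q0 := L.q0
  have hp : L.q ^ m ≠ 0 := pow_ne_zero _ q0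
  have ne : ∀ j, 1 - L.q ^ m * (L.q ^ m) ^ j ≠ 0 := fun j => by
    rw [← pow_succ', ← pow_mul]; exact L.ne _ (by positivity)
  have hU : ∀ k, k < L.n → L.U (poch (L.q ^ m) (L.q ^ m) k) := fun k hk =>
    U.prod _ _ fun i hi => by
      rw [← pow_succ', ← pow_mul]
      refine U.sub fun h => ?_
      have h1 : L.n ∣ (L.n + 1) * (i + 1) := by
        rw [ht, mul_right_comm]; exact h.mul_right _
      rw [add_mul, one_mul, Nat.dvd_add_right (dvd_mul_right _ _)] at h1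
      have := Nat.le_of_dvd (by omega) h1
      have := mem_range.mp hi
      omega
  have hT : ∀ k, k < L.n → ∀ j, L.TG fun z => g (z * (L.q ^ m) ^ (j * t)) (L.q ^ m) k := by
    intro k hk j
    refine TG.div (TG.prod _ fun i _ => ?_) (TG.const (hU k hk).1) (hU k hk)
    simpa only [mul_assoc, ← pow_add, ← pow_mul] using TG.lin
  have hmU : L.U (m : K) := U.nat hm0.ne'
  have key : ∀ i ∈ Icc 1 d, ∑ k ∈ range L.n, g (((L.q ^ L.n) ^ m)⁻¹ * (L.q ^ m) ^ (i * t)) (L.q ^ m) k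
      * (∏ j ∈ (Icc 1 d).erase i, g (1 * (L.q ^ m) ^ (j * t)) (L.q ^ m) k) * L.q ^ (m * k) = 0 := by
    intro i hi
    have h1 : ∑ j ∈ (Icc 1 d).erase i, (j * t - 1) + (d - 1) + i * t = L.n + 1 := by
      have : ∑ j ∈ (Icc 1 d).erase i, (j * t - 1) + (d - 1)
          = ∑ j ∈ (Icc 1 d).erase i, j * t := by
        rw [show d - 1 = ∑ j ∈ (Icc 1 d).erase i, 1 by simp [card_erase_of_mem hi], ← sum_add_distrib]
        refine sum_congr rfl fun j hj => Nat.sub_add_cancel ?_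
        exact Nat.mul_pos (mem_Icc.mp (mem_of_mem_erase hj)).1 ht0
      rw [this, sum_erase_add _ _ hi, ← sum_mul, hm, ht]
    have h2 := Nat.mul_pos (mem_Icc.mp hi).1 ht0
    obtain ⟨N, hN⟩ : ∃ N, N + i * t = L.n := ⟨L.n - i * t, by omega⟩
    have := Z.prod hp ne (show N < L.n by omega) ((Icc 1 d).erase i) (fun j => j * t - 1) 0
      (by omega)
    rw [← this]
    refine sum_congr rfl fun k _ => ?_
    have e : ((L.q ^ L.n) ^ m)⁻¹ * (L.q ^ m) ^ (i * t) = ((L.q ^ m) ^ N)⁻¹ := by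
      rw [← hN]; field_simp; ring
    rw [e, mul_right_comm, zero_add, pow_one, pow_mul]
    congr 1
    refine prod_congr rfl fun j hj => ?_
    rw [one_mul, Nat.sub_add_cancel (Nat.mul_pos (mem_Icc.mp (mem_of_mem_erase hj)).1 ht0)]
  have fin : ∑ k ∈ range L.n, ∑ i ∈ Icc 1 d, (i : K) / m *
      (g (((L.q ^ L.n) ^ m)⁻¹ * (L.q ^ m) ^ (i * t)) (L.q ^ m) k
      * (∏ j ∈ (Icc 1 d).erase i, g (1 * (L.q ^ m) ^ (j * t)) (L.q ^ m) k) * L.q ^ (m * k)) = 0 := by
    rw [sum_comm]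
    exact sum_eq_zero fun i hi => by rw [← mul_sum, key i hi, mul_zero]
  rw [← fin]
  refine E.sum _ fun k hk => ?_
  choose D hD hE using fun j => (hT k (mem_range.mp hk) j).2
  have hu := fun j => (hT k (mem_range.mp hk) j).1
  have h1 := prod_first (Icc 1 d) (fun j => g (L.q ^ j) (L.q ^ m) k) _ (fun j => -(j : K) * D j) hu
    (fun j => mul_mem (neg_mem (L.nat_mem j)) (hD j)) fun j _ => by
      have h := (Nr.qn (L := L) j).inv
      have e : ((L.q ^ L.n) ^ j)⁻¹ * (L.q ^ m) ^ (j * t) = L.q ^ j := by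
        rw [← pow_mul _ m, mul_left_comm, ← ht]; field_simp; ring
      have := hE j _ _ h.1 h.2
      simp only [e] at this
      exact this.of_sub (by ring)
  have h2 := E.sum (Icc 1 d) fun i (_ : i ∈ Icc 1 d) =>
    (hE i _ _ (Nr.qn (L := L) m).inv.1 (Nr.qn (L := L) m).inv.2).smul
      (mul_mem (div_mem' (L.nat_mem i) hmU) (prod_mem (t := (Icc 1 d).erase i) fun j _ => hu j))
  refine ((h1.sub h2).smul (L.qp (m * k))).of_sub ?_
  have e1 : ∑ i ∈ Icc 1 d, (i : K) / m * (∏ j ∈ (Icc 1 d).erase i,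
      g (1 * (L.q ^ m) ^ (j * t)) (L.q ^ m) k) * (g (1 * (L.q ^ m) ^ (i * t)) (L.q ^ m) k
        + L.e * -(m : K) * D i) = ∏ j ∈ Icc 1 d, g (1 * (L.q ^ m) ^ (j * t)) (L.q ^ m) k
          + L.e * ∑ i ∈ Icc 1 d, -(i : K) * D i * ∏ j ∈ (Icc 1 d).erase i,
            g (1 * (L.q ^ m) ^ (j * t)) (L.q ^ m) k := by
    have : ∑ i ∈ Icc 1 d, (i : K) / m = 1 := by
      rw [← sum_div, ← Nat.cast_sum, hm, div_self hmU.2.2]
    rw [← one_mul (∏ j ∈ Icc 1 d, _), ← this, sum_mul, mul_sum, ← sum_add_distrib]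
    refine sum_congr rfl fun i hi => ?_
    have := hmU.2.2
    rw [← mul_prod_erase _ _ hi]
    field_simp
  simp only [← mul_assoc, ← sum_mul] at e1 ⊢
  rw [e1]
  simp only [mul_right_comm _ (g _ _ _) (∏ j ∈ erase _ _, _)]
  ring

theorem result (d n : ℕ) (hd : 3 ≤ d) (hn : 1 < n) (h : d * (d + 1) / 2 ∣ n + 1) :
    cyclotomic n ℚ ^ 2 ∣ (S (RatFunc.X : RatFunc ℚ) d n).num ∧
      IsCoprime (S (RatFunc.X : RatFunc ℚ) d n).denom (cyclotomic n ℚ ^ 2) := by
  obtain ⟨t, ht⟩ := h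
  have hm : ∑ j ∈ Icc 1 d, j = d * (d + 1) / 2 := by
    have : ∀ d : ℕ, (∑ j ∈ Icc 1 d, j) * 2 = d * (d + 1) := fun d => by
      induction d with
      | zero => simp
      | succ d ih => rw [sum_Icc_succ_top (by omega), add_mul, ih]; ring
    rw [← this, Nat.mul_div_cancel _ two_pos]
  have := cyc_out' (by omega) (main (L := cycL n (by omega)) hd hm ht hn)
  simpa [S, g, prod_div_distrib, cycL] using this

end Pool.Agent.Results.MP_4d1f21_nt.Guo
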